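import Pool.Agent.H83.V.T1
import Pool.Agent.H11.V.Y4

/-!
Theorem V, row Y3: the crossing inequality.
-/

set_option autoImplicit false

open MeasureTheory ProbabilityTheory Filter Topology Finset
open scoped Nat ENNReal

namespace Pool.Agent.H94.V

open Pool.Agent.H67.AG (Inv)
open Pool.Agent.H28.LF (Wd La Cd dm ds)
open Pool.Agent.H83.V
open Pool.Agent.H11.V (meas_dm dm_bd meas_ys meas_yt inv_le)

theorem pf_Y3 (hP : T_PGV) (h2 : T_Y2) : T_Y3 := by
  intro d e L t B hL hB hcond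
  have hm0 : (0 : ℝ) < d.m := by exact_mod_cast d.m0
  have hkp : 0 ≤ kp d.γ := by unfold kp; positivity
  have hps : d.ps = kp d.γ / (2 * d.m) := rfl
  have hps0 : 0 ≤ d.ps := by rw [hps]; positivity
  have hle : 11 / 10 * d.ps ≤ 2 * kp d.γ / d.m := by
    rw [hps]
    have h1 : 11 / 10 * (kp d.γ / (2 * (d.m : ℝ))) = 11 / 20 * (kp d.γ / d.m) := by
      field_simp
      ring
    have h3 : 2 * kp d.γ / (d.m : ℝ) = 2 * (kp d.γ / d.m) := by ring
    rw [h1, h3]
    have h4 : 0 ≤ kp d.γ / (d.m : ℝ) := by positivity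
    linarith
  have hys := meas_ys e
  have hyt := meas_yt e t
  have hdm : Measurable (dm e.ys (e.yt t)) := meas_dm hys hyt
  have hBm : MeasurableSet B := inv_le e.T 1 _ hB
  have key := hP e.Ω e.P e.T d.U d.s d.γ d.q d.m d.I d.Bad e.ys (e.yt t) B e.mp d.hU d.sv d.γ0
    d.hγ d.m0 d.code hys hyt hB (by
      filter_upwards [hcond] with ω h hω
      exact (h hω).2.trans hle)
  have hint : Integrable (dm e.ys (e.yt t)) e.P := by
    refine Integrable.of_bound hdm.aestronglyMeasurable 1 (ae_of_all _ fun ω => ?_)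
    have h := dm_bd e.ys (e.yt t) ω
    rw [Real.norm_eq_abs, abs_of_nonneg h.1]
    exact h.2
  have hce : ∫ ω in B, (e.P[dm e.ys (e.yt t) | Inv e.T 1]) ω ∂e.P =
      ∫ ω in B, dm e.ys (e.yt t) ω ∂e.P := setIntegral_condExp (inv_le e.T 1) hint hB
  have hlow : d.ps * e.P.real B ≤ ∫ ω in B, (e.P[dm e.ys (e.yt t) | Inv e.T 1]) ω ∂e.P := by
    have h1 : ∫ _ in B, d.ps ∂e.P = d.ps * e.P.real B := by
      rw [setIntegral_const, smul_eq_mul, mul_comm]
    rw [← h1]
    refine setIntegral_mono_on_ae integrableOn_const integrable_condExp.integrableOn hBm ?_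
    filter_upwards [hcond] with ω h hω
    exact (h hω).1.le
  rw [hce] at hlow
  have hI : (d.m : ℝ) / 2 ≤ d.I.card := by
    have h1 : (d.m : ℝ) ≤ 2 * d.I.card := by exact_mod_cast d.hI
    linarith
  have hP0 : 0 ≤ e.P.real B := measureReal_nonneg
  have hY2 := h2 d e L t B hL hB
  have h1 : 7 / 32 * d.γ * kp d.γ * e.P.real B ≤
      7 / 8 * d.γ * (d.I.card : ℝ) * ∫ ω in B, dm e.ys (e.yt t) ω ∂e.P := by
    have h3 : 7 / 32 * d.γ * kp d.γ * e.P.real B =
        7 / 8 * d.γ * ((d.m : ℝ) / 2) * (d.ps * e.P.real B) := by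
      rw [hps]
      field_simp
      ring
    rw [h3]
    have hγ := d.γ0
    refine mul_le_mul ?_ hlow (mul_nonneg hps0 hP0) (by positivity)
    exact mul_le_mul_of_nonneg_left hI (by positivity)
  unfold SvE.EE
  linarith

end Pool.Agent.H94.V
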